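import Pool.Agent.Q145.HQ.Pairb

/-!
# Project HQ: one system
-/

set_option autoImplicit false

namespace Pool.Agent.Q145.HQ

open Finset Filter Complex
open Pool.Agent.Q145.SZ Pool.Agent.Q145.LQ Pool.Agent.Q145.HC

/-- the points of the system -/
def ptsQ {K : ℕ} (Y : ℕ) (q : Fin K → Polynomial ℤ) (s : Fin K → ℕ) : Finset ℕ := (Ioc Y (2 * Y)).filter fun n => ∀ i, (vq (q i) n + s i).Prime

lemma ptsQ_card {K : ℕ} (Y : ℕ) (q : Fin K → Polynomial ℤ) (s : Fin K → ℕ) : (ptsQ Y q s).card = cntQ Y q s := rfl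

/-- The signs of `λ` along the points are independent of each other and of any weight, in mean square over the shifts. -/
def SignsQ {K L : ℕ} (Y : ℕ) (H : Fin K → ℕ) (q : Fin K → Polynomial ℤ) (G : Fin L → ℕ) (f : Fin L → Polynomial ℤ) (ε : ℝ) (s : Fin K → ℕ) : Prop :=
  ∀ (e : Fin L → ℝ) (w : ℕ → ℂ), (∀ j, e j = 1 ∨ e j = -1) → (∀ n, ‖w n‖ ≤ 1) →
    ∑ t ∈ Fintype.piFinset (fun j : Fin L => Icc 1 (G j)), (‖(2 : ℂ) ^ L * (∑ n ∈ (ptsQ Y q s).filter fun n => ∀ j, lm (vq (f j) n + t j) = e j, w n) -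
      ∑ n ∈ ptsQ Y q s, w n‖ * ∏ i, Real.log (H i)) ^ 2 ≤ (∏ j, (G j : ℝ)) * (ε * (singQ q s * Y)) ^ 2

/-- the pairs of points in an exceptional set -/
lemma pair_countQ {K Y d z X : ℕ} {H : Fin K → ℕ} {q : Fin K → Polynomial ℤ} (hS : Sys d z Y X H q) (hX : 3 ≤ X) (s : Fin K → ℕ) (E : Finset (ℕ × ℕ)) :
    (((ptsQ Y q s ×ˢ ptsQ Y q s).filter fun x => x ∈ E).card : ℝ) * (∏ i, Real.log (H i)) ^ 2 ≤ PRq Y q E s := by
  classical
  have hL : ∀ i, 0 ≤ Real.log (H i) := fun i => Real.log_natCast_nonneg _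
  unfold PRq
  rw [← nsmul_eq_mul, ← sum_const]
  refine le_trans (sum_le_sum (g := fun x : ℕ × ℕ => ∏ i, wt (vq (q i) x.1 + s i) * wt (vq (q i) x.2 + s i)) ?_)
    (sum_le_sum_of_subset_of_nonneg ?_ fun x _ _ => prod_nonneg fun i _ => mul_nonneg (wt_nonneg _) (wt_nonneg _))
  · intro x hx
    rw [mem_filter, mem_product] at hx
    obtain ⟨⟨h1, h2⟩, _⟩ := hx
    unfold ptsQ at h1 h2
    rw [mem_filter] at h1 h2
    have e : (∏ i, Real.log (H i)) ^ 2 = ∏ i : Fin K, (Real.log (H i) * Real.log (H i)) := by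
      rw [prod_mul_distrib]; ring
    rw [e]
    apply prod_le_prod (fun _ _ => mul_nonneg (hL _) (hL _))
    intro i _
    have hH : 3 ≤ H i := hX.trans (hS.scale i).1
    have m1 := (hS.mem i h1.1).1
    have m2 := (hS.mem i h2.1).1
    rw [mem_Ioc] at m1 m2
    have hH0 : (0 : ℝ) < H i := by
      have : 0 < H i := by omega
      exact_mod_cast this
    have a1 : Real.log (H i) ≤ wt (vq (q i) x.1 + s i) := by
      unfold wt; rw [if_pos (h1.2 i)]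
      apply Real.log_le_log hH0
      have : H i ≤ vq (q i) x.1 + s i := by omega
      exact_mod_cast this
    have a2 : Real.log (H i) ≤ wt (vq (q i) x.2 + s i) := by
      unfold wt; rw [if_pos (h2.2 i)]
      apply Real.log_le_log hH0
      have : H i ≤ vq (q i) x.2 + s i := by omega
      exact_mod_cast this
    exact mul_le_mul a1 a2 (hL i) (wt_nonneg _)
  · intro x hx
    rw [mem_filter, mem_product] at hx ⊢
    obtain ⟨⟨h1, h2⟩, h3⟩ := hx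
    have b1 : x.1 ∈ Ioc Y (2 * Y) := (mem_filter.1 h1).1
    have b2 : x.2 ∈ Ioc Y (2 * Y) := (mem_filter.1 h2).1
    exact ⟨⟨b1, b2⟩, Or.inl h3⟩

/-- one system -/
lemma signs_of (sgn : S_SGNQ) {K L Y d z X : ℕ} {H : Fin K → ℕ} {q : Fin K → Polynomial ℤ} {G : Fin L → ℕ} {f : Fin L → Polynomial ℤ} (hS : Sys d z Y X H q) (hX : 3 ≤ X)
    (s : Fin K → ℕ) (E : Finset (ℕ × ℕ)) {δ e ε M : ℝ} (hG : ∀ j, 1 ≤ G j)
    (he : 0 < e) (he1 : e ≤ 1) (heε : 8 * e ≤ ε) (hε1 : ε ≤ 1) (hδ : 0 ≤ δ) (hLδ : 10 * L * δ ≤ e ^ 2)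
    (hpn : ∀ j, ∀ n ∈ Ioc Y (2 * Y), |∑ t ∈ Icc 1 (G j), lm (vq (f j) n + t)| ≤ δ * G j)
    (hc : ∀ j, ∀ n ∈ Ioc Y (2 * Y), ∀ m ∈ Ioc Y (2 * Y), (n, m) ∉ E → |∑ t ∈ Icc 1 (G j), lm (vq (f j) n + t) * lm (vq (f j) m + t)| ≤ δ * G j)
    (hSp : 0 < singQ q s * Y) (h1 : |cntQ Y q s * ∏ i, Real.log (H i) - singQ q s * Y| ≤ ε / 2 * (singQ q s * Y)) (hM0 : 0 ≤ M) (hM : M ≤ 2 * (singQ q s * Y))
    (hP : 2 ^ (L + 2) * PRq Y q E s ≤ e ^ 2 * M ^ 2) :
    SignsQ Y H q G f ε s := by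
  set P := ptsQ Y q s with hPdef
  set S : ℝ := singQ q s * Y with hSdef
  set N : ℝ := (P.card : ℝ) with hN
  set Lk : ℝ := ∏ i, Real.log (H i) with hLk
  have hLk0 : 0 ≤ Lk := prod_nonneg fun i _ => Real.log_natCast_nonneg _
  have hNc : (cntQ Y q s : ℝ) = N := by rw [hN, hPdef, ptsQ_card]
  rw [hNc] at h1
  set Qc : ℝ := (((P ×ˢ P).filter fun x => x ∈ E).card : ℝ) with hQ
  set PR : ℝ := PRq Y q E s with hPR
  have hQP : Qc * Lk ^ 2 ≤ PR := pair_countQ hS hX s E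
  have hPX : ∀ n ∈ P, n ∈ Ioc Y (2 * Y) := fun n hn => (mem_filter.1 hn).1
  have hPR0 : 0 ≤ PR := PRq_nonneg Y q E s
  have hpow : (1 : ℝ) ≤ 2 ^ (L + 2) := one_le_pow₀ (by norm_num)
  have hM2 : M ^ 2 ≤ 4 * S ^ 2 := by nlinarith
  have hPR2 : 2 ^ (L + 2) * PR ≤ 4 * e ^ 2 * S ^ 2 := by
    refine hP.trans ?_
    nlinarith [sq_nonneg e]
  have hNL0 : 0 ≤ N * Lk := by positivity
  have hNL : N * Lk ≤ 2 * S := by
    have := (abs_le.1 h1).2
    nlinarith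
  have hNL2 : (N * Lk) ^ 2 ≤ 4 * S ^ 2 := by nlinarith
  have hε0 : 0 < ε := by linarith
  have h64 : 64 * e ^ 2 ≤ ε ^ 2 := by nlinarith
  have hS2 : 0 ≤ S ^ 2 := by positivity
  intro u w hu hw
  have k1 := sgn L G P E (fun j n t => lm (vq (f j) n + t)) u δ w hG hδ (by nlinarith [sq_nonneg e]) (fun j n t => lm_cases _) hu hw
    (fun j n hn => hpn j n (hPX n hn)) (fun j n hn m hm hnm => hc j n (hPX n hn) m (hPX m hm) hnm)
  have hXL : (0 : ℝ) ≤ ∏ j, (G j : ℝ) := prod_nonneg fun j _ => Nat.cast_nonneg _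
  have k2 : ∑ t ∈ Fintype.piFinset (fun j : Fin L => Icc 1 (G j)), (‖(2 : ℂ) ^ L * (∑ n ∈ P.filter fun n => ∀ j, lm (vq (f j) n + t j) = u j, w n) -
      ∑ n ∈ P, w n‖ * Lk) ^ 2 = Lk ^ 2 * ∑ t ∈ Fintype.piFinset (fun j : Fin L => Icc 1 (G j)),
      ‖(2 : ℂ) ^ L * (∑ n ∈ P.filter fun n => ∀ j, lm (vq (f j) n + t j) = u j, w n) - ∑ n ∈ P, w n‖ ^ 2 := by
    rw [mul_sum]
    refine sum_congr rfl fun t _ => by ring
  rw [k2]
  refine (mul_le_mul_of_nonneg_left k1 (by positivity : 0 ≤ Lk ^ 2)).trans ?_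
  have : Lk ^ 2 * ((∏ j, (G j : ℝ)) * (10 * L * δ * N ^ 2 + 2 ^ (L + 2) * Qc)) =
      (∏ j, (G j : ℝ)) * (10 * L * δ * (N * Lk) ^ 2 + 2 ^ (L + 2) * (Qc * Lk ^ 2)) := by ring
  rw [this]
  apply mul_le_mul_of_nonneg_left _ hXL
  have a1 : 10 * L * δ * (N * Lk) ^ 2 ≤ e ^ 2 * (4 * S ^ 2) := by
    apply mul_le_mul hLδ hNL2 (by positivity) (by positivity)
  have a2 : 2 ^ (L + 2) * (Qc * Lk ^ 2) ≤ 2 ^ (L + 2) * PR := by gcongr
  nlinarith

open Classical in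
/-- the law for all but a proportion `ε` of the admissible constants -/
def HLL {K L : ℕ} (Y : ℕ) (H : Fin K → ℕ) (q : Fin K → Polynomial ℤ) (G : Fin L → ℕ) (f : Fin L → Polynomial ℤ) (ε : ℝ) : Prop :=
  (((ATQ H q).filter fun s => ¬ (0 < singQ q s ∧ Tendsto (singPQ q s) atTop (nhds (singQ q s)) ∧
    |cntQ Y q s * ∏ i, Real.log (H i) - singQ q s * Y| ≤ ε * (singQ q s * Y) ∧ SignsQ Y H q G f ε s)).card : ℝ) ≤ ε * (ATQ H q).card

open Classical in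
/-- transfer from the classes to the admissible constants -/
lemma law_of (sgn : S_SGNQ) (mbs : S_MBQ) (tr : S_TRANSQ) {K L Y z : ℕ} {H : Fin K → ℕ} {q : Fin K → Polynomial ℤ} {G : Fin L → ℕ} {f : Fin L → Polynomial ℤ}
    (hS : Sys 2 z Y (Y ^ 2) H q) (hY : 2 ≤ Y) (hKz : 2 * K + 1 ≤ z) (h8 : 8 * (K + 1) * PW z ≤ Y ^ 2)
    (E : Finset (ℕ × ℕ)) {δ e ε : ℝ} (hG : ∀ j, 1 ≤ G j)
    (he : 0 < e) (he16 : e ≤ 1 / 16) (heε : 8 * e ≤ ε) (hε1 : ε ≤ 1) (hδ : 0 ≤ δ) (hLδ : 10 * L * δ ≤ e ^ 2)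
    (hpn : ∀ j, ∀ n ∈ Ioc Y (2 * Y), |∑ t ∈ Icc 1 (G j), lm (vq (f j) n + t)| ≤ δ * G j)
    (hc : ∀ j, ∀ n ∈ Ioc Y (2 * Y), ∀ m ∈ Ioc Y (2 * Y), (n, m) ∉ E → |∑ t ∈ Icc 1 (G j), lm (vq (f j) n + t) * lm (vq (f j) m + t)| ≤ δ * G j)
    (hcount : HLC Y H q (ε / 2)) (hnear : NearQ z H q (singQ q) e (ε / 8))
    (hpair : ∑ b ∈ AdQ (PW z) q, (∑ s ∈ SbQ H b, 2 ^ (L + 2) * (PRq Y q E s / MbQ Y q b ^ 2)) / ((SbQ H b).card : ℝ) ≤ (e ^ 2 * (ε / 8)) * ((AdQ (PW z) q).card : ℝ)) :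
    HLL Y H q G f ε := by
  have hX3 : 3 ≤ Y ^ 2 := by nlinarith
  have hY0 : (0 : ℝ) < Y := by
    have : 0 < Y := by omega
    exact_mod_cast this
  have hε0 : 0 < ε := by linarith
  -- the bad event in the classes
  obtain ⟨Ev, hEv⟩ : ∃ Ev : (Fin K → ℕ) → Prop, ∀ s, Ev s ↔ ¬ (|singQ q s - singPQ q s z| ≤ e * singPQ q s z ∧
      2 ^ (L + 2) * PRq Y q E s ≤ e ^ 2 * (Y * singPQ q s z) ^ 2) := ⟨_, fun _ => Iff.rfl⟩
  have hfin : ∑ b ∈ AdQ (PW z) q, (((SbQ H b).filter fun s => Ev s).card : ℝ) / (SbQ H b).card ≤ (ε / 4) * (AdQ (PW z) q).card := by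
    have hb : ∀ b ∈ AdQ (PW z) q, (((SbQ H b).filter fun s => Ev s).card : ℝ) / (SbQ H b).card ≤
        (e ^ 2)⁻¹ * ((∑ s ∈ SbQ H b, 2 ^ (L + 2) * (PRq Y q E s / MbQ Y q b ^ 2)) / ((SbQ H b).card : ℝ)) + ε / 8 := by
      intro b hb
      rcases Nat.eq_zero_or_pos (SbQ H b).card with h0 | h0
      · rw [h0]; simp; positivity
      have h0' : (0 : ℝ) < (SbQ H b).card := by exact_mod_cast h0
      have hne : (GQ q b).Nonempty := by
        unfold AdQ at hb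
        rw [mem_filter] at hb
        exact hb.2
      have hMb0 : 0 < MbQ Y q b := by
        have : (0 : ℝ) < (GQ q b).card := by exact_mod_cast card_pos.2 hne
        have hv := vv_pos z
        have hW : (0 : ℝ) < PW z := by exact_mod_cast PW_pos z
        unfold MbQ
        exact mul_pos (div_pos (mul_pos hY0 this) hW) (pow_pos hv K)
      have hsub : (SbQ H b).filter (fun s => Ev s) ⊆
          (SbQ H b).filter (fun s => e ^ 2 < 2 ^ (L + 2) * (PRq Y q E s / MbQ Y q b ^ 2)) ∪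
            (SbQ H b).filter (fun s => ¬ (AdmQ q s → |singQ q s - singPQ q s z| ≤ e * singPQ q s z)) := by
        intro s hs
        rw [mem_filter] at hs
        obtain ⟨hs1, hs2⟩ := hs
        rw [hEv] at hs2
        rw [mem_union, mem_filter, mem_filter]
        by_contra hcon
        push Not at hcon
        obtain ⟨c1, c2⟩ := hcon
        have c1 := c1 hs1
        have c2 := c2 hs1
        apply hs2
        have hsb : (fun i => ((s i : ℕ) : ZMod (PW z))) = b := by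
          funext i
          have := Fintype.mem_piFinset.1 hs1 i
          unfold cls at this
          exact (mem_filter.1 this).2
        have hmb := mbs 2 z Y K q s
        rw [hsb] at hmb
        have hadm : AdmQ q s := (hmb.2 (by omega) fun i => ⟨(hS.deg i).1, (hS.deg i).2, hS.lead i⟩).2 hne
        refine ⟨c2 hadm, ?_⟩
        rw [← hmb.1]
        have e5 : 2 ^ (L + 2) * (PRq Y q E s / MbQ Y q b ^ 2) * MbQ Y q b ^ 2 ≤ e ^ 2 * MbQ Y q b ^ 2 := by gcongr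
        have e6 : 2 ^ (L + 2) * (PRq Y q E s / MbQ Y q b ^ 2) * MbQ Y q b ^ 2 = 2 ^ (L + 2) * PRq Y q E s := by
          field_simp
        rw [e6] at e5
        exact e5
      have hPn : ∀ s : Fin K → ℕ, 0 ≤ (2 : ℝ) ^ (L + 2) * (PRq Y q E s / MbQ Y q b ^ 2) := fun s =>
        mul_nonneg (by positivity) (div_nonneg (PRq_nonneg Y q E s) (by positivity))
      have hc4 : (((SbQ H b).filter fun s => e ^ 2 < 2 ^ (L + 2) * (PRq Y q E s / MbQ Y q b ^ 2)).card : ℝ) ≤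
          (e ^ 2)⁻¹ * ∑ s ∈ SbQ H b, 2 ^ (L + 2) * (PRq Y q E s / MbQ Y q b ^ 2) := by
        rw [card_eq_sum_ones, Nat.cast_sum, mul_sum]
        push_cast
        refine le_trans ?_ (sum_le_sum_of_subset_of_nonneg (filter_subset (fun s => e ^ 2 < 2 ^ (L + 2) * (PRq Y q E s / MbQ Y q b ^ 2)) (SbQ H b))
          (fun s _ _ => mul_nonneg (by positivity) (hPn s)))
        apply sum_le_sum
        intro s hs
        rw [mem_filter] at hs
        rw [inv_mul_eq_div, le_div_iff₀ (by positivity)]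
        linarith [hs.2]
      have hc2 := hnear b
      have hc3 : (((SbQ H b).filter fun s => Ev s).card : ℝ) ≤
          (e ^ 2)⁻¹ * ∑ s ∈ SbQ H b, 2 ^ (L + 2) * (PRq Y q E s / MbQ Y q b ^ 2) + ε / 8 * (SbQ H b).card := by
        have h3 := card_le_card hsub
        have h4 := h3.trans (card_union_le _ _)
        have h5 : (((SbQ H b).filter fun s => Ev s).card : ℝ) ≤
          (((SbQ H b).filter fun s => e ^ 2 < 2 ^ (L + 2) * (PRq Y q E s / MbQ Y q b ^ 2)).card : ℝ) +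
          (((SbQ H b).filter (fun s => ¬ (AdmQ q s → |singQ q s - singPQ q s z| ≤ e * singPQ q s z))).card : ℝ) := by
          exact_mod_cast h4
        linarith
      rw [div_le_iff₀ h0']
      refine hc3.trans (le_of_eq ?_)
      rw [add_mul, mul_assoc (e ^ 2)⁻¹, div_mul_cancel₀ _ h0'.ne']
    have he2 : (0 : ℝ) ≤ (e ^ 2)⁻¹ := by positivity
    have hp2 := mul_le_mul_of_nonneg_left hpair he2
    have hcan : (e ^ 2)⁻¹ * (e ^ 2 * (ε / 8) * ((AdQ (PW z) q).card : ℝ)) = ε / 8 * ((AdQ (PW z) q).card : ℝ) := by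
      rw [← mul_assoc, ← mul_assoc, inv_mul_cancel₀ (by positivity), one_mul]
    rw [hcan] at hp2
    have hs := sum_le_sum hb
    rw [sum_add_distrib, ← mul_sum, sum_const, nsmul_eq_mul] at hs
    linarith
  have ht := tr mbs 2 z Y (Y ^ 2) K H q Ev (ε / 4) hKz hS h8 hfin
  unfold HLC at hcount
  unfold HLL
  have hsub : ((ATQ H q).filter fun s => ¬ (0 < singQ q s ∧ Tendsto (singPQ q s) atTop (nhds (singQ q s)) ∧
      |cntQ Y q s * ∏ i, Real.log (H i) - singQ q s * Y| ≤ ε * (singQ q s * Y) ∧ SignsQ Y H q G f ε s)) ⊆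
      ((ATQ H q).filter fun s => ¬ (0 < singQ q s ∧ Tendsto (singPQ q s) atTop (nhds (singQ q s)) ∧
        |cntQ Y q s * ∏ i, Real.log (H i) - singQ q s * Y| ≤ ε / 2 * (singQ q s * Y))) ∪ ((ATQ H q).filter fun s => Ev s) := by
    intro s hs
    rw [mem_filter] at hs
    rw [mem_union, mem_filter, mem_filter]
    by_contra hcon
    rw [not_or] at hcon
    obtain ⟨c1, c2⟩ := hcon
    have c1 : 0 < singQ q s ∧ Tendsto (singPQ q s) atTop (nhds (singQ q s)) ∧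
        |cntQ Y q s * ∏ i, Real.log (H i) - singQ q s * Y| ≤ ε / 2 * (singQ q s * Y) := by
      by_contra h
      exact c1 ⟨hs.1, h⟩
    have c2 : |singQ q s - singPQ q s z| ≤ e * singPQ q s z ∧ 2 ^ (L + 2) * PRq Y q E s ≤ e ^ 2 * (Y * singPQ q s z) ^ 2 := by
      by_contra h
      exact c2 ⟨hs.1, (hEv s).2 h⟩
    apply hs.2
    have hpos : 0 < singQ q s * Y := mul_pos c1.1 hY0
    refine ⟨c1.1, c1.2.1, c1.2.2.trans (by nlinarith), ?_⟩
    have hsp := singPQ_nonneg q s z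
    refine signs_of sgn hS hX3 s E (δ := δ) (e := e) (M := Y * singPQ q s z) hG he (by linarith) heε hε1 hδ hLδ hpn hc hpos c1.2.2 (by positivity) ?_ c2.2
    have := (abs_le.1 c2.1).1
    have h7 : e * singPQ q s z ≤ 1 / 16 * singPQ q s z := mul_le_mul_of_nonneg_right he16 hsp
    have h8 : singPQ q s z ≤ 2 * singQ q s := by linarith
    calc (Y : ℝ) * singPQ q s z ≤ Y * (2 * singQ q s) := by gcongr
      _ = 2 * (singQ q s * Y) := by ring
  have h3 := (card_le_card hsub).trans (card_union_le _ _)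
  have h4 : ((((ATQ H q).filter fun s => ¬ (0 < singQ q s ∧ Tendsto (singPQ q s) atTop (nhds (singQ q s)) ∧
      |cntQ Y q s * ∏ i, Real.log (H i) - singQ q s * Y| ≤ ε * (singQ q s * Y) ∧ SignsQ Y H q G f ε s))).card : ℝ) ≤
      ((((ATQ H q).filter fun s => ¬ (0 < singQ q s ∧ Tendsto (singPQ q s) atTop (nhds (singQ q s)) ∧
        |cntQ Y q s * ∏ i, Real.log (H i) - singQ q s * Y| ≤ ε / 2 * (singQ q s * Y)))).card : ℝ) +
      ((((ATQ H q).filter fun s => Ev s)).card : ℝ) := by exact_mod_cast h3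
  have h5 : ε / 2 * ((ATQ H q).card : ℝ) + 2 * (ε / 4) * ((ATQ H q).card : ℝ) = ε * ((ATQ H q).card : ℝ) := by ring
  linarith

end Pool.Agent.Q145.HQ
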