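import Pool.Agent.Q145.HQ.LawB
import Pool.Agent.Q145.HC.LawE

/-!
# Project HQ: the correlations of the Liouville function at all scales, the sufficiency statement
-/

set_option autoImplicit false

namespace Pool.Agent.Q145.HQ

open Finset Filter
open Pool.Agent.Q145.SZ Pool.Agent.Q145.LQ Pool.Agent.Q145.HC
open Pool.Agent.Q145.LS (SUFP SUFc)

/-- the correlations of `λ` at all scales `Z ∈ [X, z X]` -/
theorem lcz (ms : S_MSL') (lc : ∀ A : ℕ, ∃ (b A' C₁ X₀ : ℕ), ∀ z X : ℕ, X₀ ≤ X →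
    C₁ * Real.log (Real.log X) ≤ z → C₁ * (z : ℝ) ≤ Real.log X → ML A' X (2 * PW z ^ b) → LCc A z X) (pb : S_PWB) (ldu : S_LDU) (A : ℕ) :
    ∃ (B : ℕ) (C₀ : ℝ), 1 ≤ B ∧ 64 ≤ C₀ ∧
    ∀ (z X : ℕ) (ω T : ℝ), C₀ ≤ Real.log (Real.log X) → C₀ * Real.log (Real.log X) ≤ z → C₀ * z * Real.log (Real.log X) ≤ Real.log X →
      0 < ω → ω ≤ 1 / 4 → C₀ * Real.log (Real.log X) ≤ ω * Real.log X → 0 < T → 120 * B * z ≤ Real.log T → 7 * √(Real.log X) ≤ Real.log T →
      ZF (PW z ^ B) ω T → ∀ Z : ℕ, X ≤ Z → Z ≤ z * X → LCd A z Z := by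
  obtain ⟨A', X₀, hA', hu⟩ := ldu A
  obtain ⟨B, C₀, hB, hC₀, han⟩ := anL ms lc pb A'
  refine ⟨B, 2 * C₀ + X₀, hB, ?_, ?_⟩
  · have : (0 : ℝ) ≤ X₀ := by positivity
    linarith
  intro z X ω T hl hz hzL hω hω4 hωL hT hTz hTL hZF Z hXZ hZz
  have p1 : (0 : ℝ) ≤ X₀ := by positivity
  have hl0 : 0 < Real.log (Real.log X) := by linarith
  have hl64 : 64 ≤ Real.log (Real.log X) := by linarith
  have hz0 : (0 : ℝ) ≤ z := by positivity
  have hzl0 : 0 ≤ (z : ℝ) * Real.log (Real.log X) := by positivity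
  have hX₀l : 0 ≤ (X₀ : ℝ) * Real.log (Real.log X) := by positivity
  have hX₀zl : 0 ≤ (X₀ : ℝ) * (z * Real.log (Real.log X)) := by positivity
  have hz' : 2 * C₀ * Real.log (Real.log X) ≤ z := by nlinarith
  have hzL' : 2 * C₀ * z * Real.log (Real.log X) ≤ Real.log X := by nlinarith
  have h64z : 128 * Real.log (Real.log X) ≤ z := by nlinarith
  have h64L : 128 * z * Real.log (Real.log X) ≤ Real.log X := by nlinarith
  obtain ⟨s1, s2, s3, s4⟩ := scaleQ hl64 (by linarith) (by nlinarith) hXZ hZz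
  obtain ⟨g1, g2, g3, g4, g5, g6, g7, g8, g9⟩ := elem (z := z) (X := X) (C := 64) (M := 64) le_rfl (by norm_num) hl64 (by linarith) (by nlinarith)
  have hX0 : (0 : ℝ) < X := by rw [g6]; exact Real.exp_pos _
  have hz1 : (0 : ℝ) < z := by linarith
  have hX₀Z : X₀ ≤ Z := by
    have h2 : Real.log X ≤ X := by
      have := Real.log_le_sub_one_of_pos hX0
      linarith
    have h3 : (X : ℝ) ≤ Z := by exact_mod_cast hXZ
    have h4 : (X₀ : ℝ) ≤ Z := by linarith
    exact_mod_cast h4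
  have hlogZ : Real.log Z ≤ Real.log X * (49 / 36) := by
    have h1 : (Z : ℝ) ≤ z * X := by exact_mod_cast hZz
    have hZ0 : (0 : ℝ) < Z := by
      have : (X : ℝ) ≤ Z := by exact_mod_cast hXZ
      linarith
    have h2 := Real.log_le_log hZ0 h1
    rw [Real.log_mul hz1.ne' hX0.ne'] at h2
    have h3 : Real.log z ≤ z := by
      have := Real.log_le_sub_one_of_pos hz1
      linarith
    linarith
  have hTL' : 6 * √(Real.log Z) ≤ Real.log T := by
    refine le_trans ?_ hTL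
    have h1 : √(Real.log Z) ≤ 7 / 6 * √(Real.log X) := by
      apply Real.sqrt_le_iff.2
      refine ⟨by positivity, ?_⟩
      rw [mul_pow, Real.sq_sqrt g1.le]
      linarith
    linarith
  have hC₀' : (0 : ℝ) < C₀ := by linarith
  have hLC : LCc A' z Z := by
    refine han z Z ω T (by linarith) ?_ ?_ hω hω4 ?_ hT hTz hTL' hZF
    · have : C₀ * Real.log (Real.log Z) ≤ C₀ * (2 * Real.log (Real.log X)) := by gcongr
      linarith
    · have : C₀ * z * Real.log (Real.log Z) ≤ C₀ * z * (2 * Real.log (Real.log X)) := by gcongr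
      linarith
    · have h1 : C₀ * Real.log (Real.log Z) ≤ C₀ * (2 * Real.log (Real.log X)) := by gcongr
      have h2 : ω * Real.log X ≤ ω * Real.log Z := by gcongr
      have h3 : (2 * C₀ + X₀) * Real.log (Real.log X) = C₀ * (2 * Real.log (Real.log X)) + X₀ * Real.log (Real.log X) := by ring
      linarith
  exact hu z Z hX₀Z (by linarith) (by nlinarith) hLC

lemma ArgL.mono {z z' Y L : ℕ} {G : Fin L → ℕ} {f : Fin L → Polynomial ℤ} (h : ArgL z Y G f) (hz : z ≤ z') : ArgL z' Y G f where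
  deg := h.deg
  scale := fun j => ⟨(h.scale j).1, (h.scale j).2.trans (Nat.mul_le_mul_right _ hz)⟩
  val := h.val

lemma ArgL.mem {z Y L : ℕ} {G : Fin L → ℕ} {f : Fin L → Polynomial ℤ} (h : ArgL z Y G f) (j : Fin L) {n : ℕ} (hn : n ∈ Ioc Y (2 * Y)) :
    vq (f j) n ∈ Ioc (G j) (2 * G j) ∧ 5 * G j < 4 * vq (f j) n := by
  have h1 := h.val j n hn
  have h0 : 0 ≤ (f j).eval (n : ℤ) := by
    have : (0 : ℤ) ≤ (G j : ℤ) := Int.natCast_nonneg _
    omega
  have e : ((vq (f j) n : ℕ) : ℤ) = (f j).eval (n : ℤ) := Int.toNat_of_nonneg h0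
  rw [← e] at h1
  rw [mem_Ioc]
  omega

open Classical in
lemma HLL.mono {K L : ℕ} {Y : ℕ} {H : Fin K → ℕ} {q : Fin K → Polynomial ℤ} {G : Fin L → ℕ} {f : Fin L → Polynomial ℤ} {ε ε' : ℝ} (h0 : 0 < ε) (hε : ε ≤ ε')
    (h : HLL Y H q G f ε) : HLL Y H q G f ε' := by
  unfold HLL at *
  have h1 : (((ATQ H q).filter fun s => ¬ (0 < singQ q s ∧ Tendsto (singPQ q s) atTop (nhds (singQ q s)) ∧
      |cntQ Y q s * ∏ i, Real.log (H i) - singQ q s * Y| ≤ ε' * (singQ q s * Y) ∧ SignsQ Y H q G f ε' s)).card : ℝ) ≤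
      (((ATQ H q).filter fun s => ¬ (0 < singQ q s ∧ Tendsto (singPQ q s) atTop (nhds (singQ q s)) ∧
      |cntQ Y q s * ∏ i, Real.log (H i) - singQ q s * Y| ≤ ε * (singQ q s * Y) ∧ SignsQ Y H q G f ε s)).card : ℝ) := by
    have : ((ATQ H q).filter fun s => ¬ (0 < singQ q s ∧ Tendsto (singPQ q s) atTop (nhds (singQ q s)) ∧
      |cntQ Y q s * ∏ i, Real.log (H i) - singQ q s * Y| ≤ ε' * (singQ q s * Y) ∧ SignsQ Y H q G f ε' s)) ⊆
      ((ATQ H q).filter fun s => ¬ (0 < singQ q s ∧ Tendsto (singPQ q s) atTop (nhds (singQ q s)) ∧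
      |cntQ Y q s * ∏ i, Real.log (H i) - singQ q s * Y| ≤ ε * (singQ q s * Y) ∧ SignsQ Y H q G f ε s)) := by
      intro s hs
      rw [mem_filter] at hs ⊢
      refine ⟨hs.1, fun h => hs.2 ⟨h.1, h.2.1, ?_, ?_⟩⟩
      · have : 0 ≤ singQ q s * Y := mul_nonneg h.1.le (Nat.cast_nonneg _)
        exact h.2.2.1.trans (by gcongr)
      · have h3 : 0 ≤ singQ q s * Y := mul_nonneg h.1.le (Nat.cast_nonneg _)
        intro u w hu hw
        refine (h.2.2.2 u w hu hw).trans ?_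
        have hG : (0 : ℝ) ≤ ∏ j, (G j : ℝ) := prod_nonneg fun j _ => Nat.cast_nonneg _
        gcongr
    exact_mod_cast card_le_card this
  refine h1.trans (h.trans ?_)
  gcongr

/-- the result for systems of quadratic polynomials with scale `Y²`, with the signs of the Liouville function at linear and quadratic arguments -/
def PQL (Y Q : ℕ) (ε : ℝ) : Prop := ∀ (K L : ℕ) (H : Fin K → ℕ) (q : Fin K → Polynomial ℤ) (G : Fin L → ℕ) (f : Fin L → Polynomial ℤ), 96 * (K + L + 1) ≤ Q →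
  Sys 2 Q Y (Y ^ 2) H q → (∀ i, (q i).natDegree = 2) → ArgL Q Y G f → HLL Y H q G f ε

end Pool.Agent.Q145.HQ
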