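import Pool.Agent.Q145.HQ.Suf
import Pool.Agent.Q145.LQ.All
import Pool.Agent.Q145.HC.Fin
import Pool.Agent.Q53.LQ.CHT
import Pool.Agent.Q53.HQ.LDU
import Pool.Agent.Q53.HQ.SGNQ
import Pool.Agent.Q53.HQ.MOMEQ
import Pool.Agent.Q193.HQ.EXL

/-!
# Project HQ: assembly of all parts
-/

set_option autoImplicit false

namespace Pool.Agent.Q145.HQ

open Finset Filter
open Pool.Agent.Q145.SZ Pool.Agent.Q145.LQ Pool.Agent.Q145.HC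
open Pool.Agent.Q111.SZ Pool.Agent.Q58.SZ Pool.Agent.Q177.SZ
open Pool.Agent.Q145.LS (SUFP SUFc case1 case2 dich)

theorem sufl : SUFP PQL := by
  obtain ⟨a, κ, hκ, hpb⟩ := pair_boundQ t_MOMEQ Pool.Agent.Q177.LQ.t_NOK (Pool.Agent.Q53.LQ.HSQ.main (Pool.Agent.Q53.LQ.JPOLY.main sq2)) t_ESQ t_SIEVE t_PWB t_US
  exact sufL (sufq2 t_CHT) (Pool.Agent.Q241.HC.t_MSL hyb' t_SHL) (t_LCOR t_ENG t_MAJL t_GSL t_MINL t_PWB) t_PWB t_LDU tailq' (Pool.Agent.Q150.LQ.t_FARQ t_CHT)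
    t_EXL t_PNL t_SGNQ t_MBQ Pool.Agent.Q210.LQ.t_TRANSQ hκ hpb

theorem mainA1 (A ε : ℝ) (hε : 0 < ε) : ∀ᶠ Y : ℕ in atTop, ∀ Q : ℕ, (Q : ℝ) ≤ A * Real.log (Real.log Y) → PQL Y Q ε :=
  case1 zr' Pool.Agent.Q111.SZ.t_PWB Pool.Agent.Q177.SZ.t_SIEG sufl A ε hε

theorem mainA2 : ∃ c : ℝ, 0 < c ∧ ∀ ε : ℝ, 0 < ε → ∃ᶠ Y : ℕ in atTop, ∀ Q : ℕ, (Q : ℝ) ≤ c * (Real.log Y / Real.log (Real.log Y)) → PQL Y Q ε :=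
  case2 Pool.Agent.Q111.SZ.t_PWB sufl good'

theorem mainA3 : ∃ c C : ℝ, 0 < c ∧ 0 < C ∧ ∀ ε : ℝ, 0 < ε → ∀ᶠ Y : ℕ in atTop,
      (∀ (r : ℕ) [NeZero r], 1 < r → (r : ℝ) ≤ Real.exp (Real.log Y / Real.log (Real.log Y)) → ∀ χ : DirichletCharacter ℂ r, χ.IsPrimitive → χ ^ 2 = 1 →
        ∀ β : ℝ, χ.LFunction β = 0 → β ≤ 1 - C * (Real.log (Real.log Y) / Real.log Y)) →
      ∀ Q : ℕ, (Q : ℝ) ≤ c * (Real.log Y / Real.log (Real.log Y)) → PQL Y Q ε :=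
  dich zr' Pool.Agent.Q111.SZ.t_PWB sufl

end Pool.Agent.Q145.HQ
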