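import Pool.Agent.Q145.HQ.Stm

/-!
# Project HQ: the exceptional pairs on average
-/

set_option autoImplicit false

namespace Pool.Agent.Q145.HQ

open Finset Filter
open Pool.Agent.Q145.SZ Pool.Agent.Q145.LQ Pool.Agent.Q145.HC

open Classical in
/-- the exceptional pairs and the pairs with equal values of a system -/
noncomputable def PRq {K : ℕ} (Y : ℕ) (q : Fin K → Polynomial ℤ) (E : Finset (ℕ × ℕ)) (s : Fin K → ℕ) : ℝ :=
  ∑ x ∈ (Ioc Y (2 * Y) ×ˢ Ioc Y (2 * Y)).filter (fun x => x ∈ E ∨ ¬ okp q x.1 x.2), ∏ i, wt (vq (q i) x.1 + s i) * wt (vq (q i) x.2 + s i)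

lemma PRq_nonneg {K : ℕ} (Y : ℕ) (q : Fin K → Polynomial ℤ) (E : Finset (ℕ × ℕ)) (s : Fin K → ℕ) : 0 ≤ PRq Y q E s :=
  sum_nonneg fun _ _ => prod_nonneg fun _ _ => mul_nonneg (wt_nonneg _) (wt_nonneg _)

/-- the numerical part -/
lemma num_pairQ {z X Y K L a₀ : ℕ} {M C₀ η : ℝ} (hη : 0 < η) (hM : 64 ≤ M) (hMη : 64 / η ≤ M) (hC₀ : 0 ≤ C₀) (ha₀ : C₀ ≤ a₀)
    (pb : S_PWB) (hz1 : Real.exp ((z : ℝ) / 2) ≤ PW z)
    (hX : M ≤ Real.log (Real.log X)) (hYX : Y ≤ X) (h1 : 64 * Real.log (Real.log X) ≤ z) (h2 : 64 * z * Real.log (Real.log X) ≤ Real.log Y)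
    (hK : 96 * (K + L + 1) ≤ z) :
    2 ^ (L + 2) * ((PW z : ℝ) ^ 2 * C₀ ^ K * (2 / (PW z : ℝ) ^ (a₀ + 6)) + (PW z : ℝ) ^ 2 * (16 * Real.log X ^ 2) ^ K * (1 + K * (2 : ℕ)) / Y) ≤ η := by
  obtain ⟨hL0, hLM, hzM, hzL, hzl, hXe, hYe, hLe, hl64, hlL, hYXl⟩ := elemQ hM hX hYX h1 h2
  set Λ := Real.log X with hL
  set l := Real.log Λ with hl
  set LY := Real.log Y with hLY
  set W : ℝ := (PW z : ℝ) with hW
  have hM0 : 0 < M := by linarith
  have hz0 : (0 : ℝ) < z := by linarith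
  have hW1 : 1 ≤ W := one_le_PW z
  have hWe : W ≤ Real.exp (2 * z) := PW_le pb z
  have hKz : (96 : ℝ) * (K + L + 1) ≤ z := by exact_mod_cast hK
  have hK0 : (0 : ℝ) ≤ K := by positivity
  have hL00 : (0 : ℝ) ≤ L := by positivity
  have hY0 : (0 : ℝ) < Y := by rw [hYe]; exact Real.exp_pos _
  have hMinv : 1 / M ≤ η / 64 := by
    rw [div_le_iff₀ hM0]; rw [div_le_iff₀ hη] at hMη; linarith
  have hWM : M ≤ W := by
    have : (z : ℝ) / 2 + 1 ≤ Real.exp (z / 2) := Real.add_one_le_exp _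
    linarith
  have hWinv : 1 / W ≤ η / 64 := le_trans (one_div_le_one_div_of_le hM0 hWM) hMinv
  have hW0 : 0 < W := by linarith
  have h2L : (2 : ℝ) ^ (L + 2) ≤ 4 * W := by
    have h3 : (2 : ℝ) ≤ Real.exp 1 := by linarith [Real.add_one_le_exp (1 : ℝ)]
    calc (2 : ℝ) ^ (L + 2) = 4 * 2 ^ L := by ring
      _ ≤ 4 * (Real.exp 1) ^ L := by gcongr
      _ = 4 * Real.exp (L : ℝ) := by rw [← Real.exp_nat_mul, mul_one]
      _ ≤ 4 * Real.exp ((z : ℝ) / 2) := by gcongr; linarith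
      _ ≤ 4 * W := by gcongr
  have hC₀K : C₀ ^ K ≤ W ^ a₀ := by
    have e1 : C₀ ≤ Real.exp a₀ := ha₀.trans (by linarith [Real.add_one_le_exp (a₀ : ℝ)])
    calc C₀ ^ K ≤ (Real.exp a₀) ^ K := by gcongr
      _ = Real.exp (a₀ * K) := by rw [← Real.exp_nat_mul]; ring_nf
      _ ≤ Real.exp (a₀ * (z / 2)) := by
        apply Real.exp_le_exp.2
        apply mul_le_mul_of_nonneg_left _ (by positivity)
        linarith
      _ = Real.exp (z / 2) ^ a₀ := by rw [← Real.exp_nat_mul]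
      _ ≤ W ^ a₀ := by gcongr
  have t1 : 2 ^ (L + 2) * (W ^ 2 * C₀ ^ K * (2 / W ^ (a₀ + 6))) ≤ η / 2 := by
    calc 2 ^ (L + 2) * (W ^ 2 * C₀ ^ K * (2 / W ^ (a₀ + 6))) ≤ (4 * W) * (W ^ 2 * W ^ a₀ * (2 / W ^ (a₀ + 6))) := by gcongr
      _ = 8 / W ^ 3 := by
        rw [pow_add]; field_simp; ring
      _ ≤ 8 * (1 / W) := by
        rw [div_eq_mul_one_div]
        gcongr
        exact le_self_pow₀ hW1 (by norm_num)
      _ ≤ 8 * (η / 64) := by gcongr
      _ ≤ η / 2 := by linarith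
  have hlog4 : (16 * Λ ^ 2) ^ K ≤ Real.exp (z * l) := by
    have h4 : 16 * Λ ^ 2 ≤ Real.exp (4 * l) := by
      have h5 : (16 : ℝ) ≤ Real.exp l := by linarith [Real.add_one_le_exp l]
      have h6 : Real.exp (4 * l) = Real.exp l * Real.exp l * (Real.exp l) ^ 2 := by
        rw [← Real.exp_nat_mul, ← Real.exp_add, ← Real.exp_add]; congr 1; push_cast; ring
      rw [h6, ← hLe]
      have h7 : (16 : ℝ) ≤ Λ := by rw [hLe]; exact h5
      have h8 : 16 ≤ Λ * Λ := by nlinarith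
      gcongr
    calc (16 * Λ ^ 2) ^ K ≤ (Real.exp (4 * l)) ^ K := by gcongr
      _ = Real.exp (K * (4 * l)) := by rw [← Real.exp_nat_mul]
      _ ≤ Real.exp (z * l) := by
        apply Real.exp_le_exp.2
        nlinarith
  have hK2 : 1 + (K : ℝ) * ((2 : ℕ) : ℝ) ≤ Real.exp z := by
    have := Real.add_one_le_exp (z : ℝ)
    push_cast
    linarith
  have t2 : 2 ^ (L + 2) * (W ^ 2 * (16 * Λ ^ 2) ^ K * (1 + K * (2 : ℕ)) / Y) ≤ η / 2 := by
    have hexp : Real.exp (9 * z + z * l - LY) ≤ 1 / M := by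
      have h5 : 9 * (z : ℝ) + z * l - LY ≤ -M := by
        have h6 : (z : ℝ) * 64 ≤ z * l := by gcongr
        nlinarith
      refine (Real.exp_le_exp.2 h5).trans ?_
      exact exp_neg_le_inv (x := M) hM0
    have hWW : W * W ^ 2 ≤ Real.exp (6 * z) := by
      calc W * W ^ 2 = W ^ 3 := by ring
        _ ≤ (Real.exp (2 * z)) ^ 3 := by gcongr
        _ = Real.exp (6 * z) := by rw [← Real.exp_nat_mul]; ring_nf
    have h4 : (4 : ℝ) ≤ Real.exp (2 * z) := by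
      have := Real.add_one_le_exp (2 * (z : ℝ)); linarith
    have hY1 : (1 : ℝ) / Y = Real.exp (-LY) := by
      rw [Real.exp_neg, ← hYe, one_div]
    calc 2 ^ (L + 2) * (W ^ 2 * (16 * Λ ^ 2) ^ K * (1 + K * (2 : ℕ)) / Y) ≤ (4 * W) * (W ^ 2 * Real.exp (z * l) * Real.exp z / Y) := by gcongr
      _ = 4 * (W * W ^ 2) * Real.exp (z * l) * Real.exp z * (1 / Y) := by ring
      _ ≤ Real.exp (2 * z) * Real.exp (6 * z) * Real.exp (z * l) * Real.exp z * (1 / Y) := by gcongr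
      _ = Real.exp (9 * z + z * l - LY) := by
        rw [hY1, ← Real.exp_add, ← Real.exp_add, ← Real.exp_add, ← Real.exp_add]; congr 1; ring
      _ ≤ 1 / M := hexp
      _ ≤ η / 64 := hMinv
      _ ≤ η / 2 := by linarith
  rw [mul_add]
  linarith

/-- the bound of the exceptional pairs, for given constants -/
def PBQ (a κ : ℕ) : Prop := ∀ η : ℝ, 0 < η → ∃ M : ℝ, 64 ≤ M ∧ ∀ (z Y X K L : ℕ) (H : Fin K → ℕ) (q : Fin K → Polynomial ℤ) (E : Finset (ℕ × ℕ)), M ≤ Real.log (Real.log X) →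
      64 * Real.log (Real.log X) ≤ z → (κ : ℝ) * z * Real.log (Real.log X) ≤ Real.log Y → Y ≤ X → 96 * (K + L + 1) ≤ z → Sys 2 z Y X H q →
      ((E.card : ℝ) ≤ (Y : ℝ) ^ 2 / (PW z : ℝ) ^ (2 * a)) →
      ∑ b ∈ AdQ (PW z) q, (∑ s ∈ SbQ H b, 2 ^ (L + 2) * (PRq Y q E s / MbQ Y q b ^ 2)) / ((SbQ H b).card : ℝ) ≤ η * ((AdQ (PW z) q).card : ℝ)

open Classical in
theorem pair_boundQ (mome : S_MOMEQ) (nok : S_NOK) (hsq : S_HSQ') (esq : S_ESQ)
    (sv : S_SIEVE) (pb : S_PWB) (us : S_US) : ∃ a κ : ℕ, 64 ≤ κ ∧ PBQ a κ := by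
  obtain ⟨Cs, Xs, hCs, hsv⟩ := sv
  obtain ⟨Ch, zh, hCh, hhs⟩ := hsq 2
  obtain ⟨z₁, hz₁⟩ := pb.2
  obtain ⟨a₀, ha₀⟩ := exists_nat_ge (2 * Cs)
  refine ⟨a₀ + 6, 64 + Ch, by omega, ?_⟩
  intro η hη
  set M : ℝ := 64 + 64 / η + Real.exp Ch + zh + z₁ + Xs + 1 with hM
  have p1 : 0 < 64 / η := by positivity
  have p4 := Real.exp_pos (Ch : ℝ)
  have p5 : (0 : ℝ) ≤ zh := by positivity
  have p6 : (0 : ℝ) ≤ z₁ := by positivity
  have p7 : (0 : ℝ) ≤ Xs := by positivity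
  have hM64 : 64 ≤ M := by linarith
  refine ⟨M, hM64, ?_⟩
  intro z Y X K L H q E hX hz hzY hYX hK hS hex
  have hCh0 : (0 : ℝ) ≤ Ch := by positivity
  have hlpos : 0 ≤ (z : ℝ) * Real.log (Real.log X) := by
    have : 0 ≤ Real.log (Real.log X) := by linarith
    positivity
  have hzY' : 64 * z * Real.log (Real.log X) ≤ Real.log Y := by
    push_cast at hzY
    nlinarith
  obtain ⟨hL0, hLM, hzM, hzL, hzl, hXe, hYe, hLe, hl64, hlL, hYXl⟩ := elemQ hM64 hX hYX hz hzY'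
  have hzL64 : 64 * z * Real.log (Real.log X) ≤ Real.log X := by linarith
  have hscale := fun (Z : ℕ) (h1 : X ≤ Z) (h2 : Z ≤ z * X) => scaleQ hl64 hz hzL64 h1 h2
  have hM0 : 0 < M := by linarith
  have hz0 : (0 : ℝ) < z := by linarith
  have hzMM : M ≤ z := by linarith
  have hz1 : z₁ ≤ z := by
    have : (z₁ : ℝ) ≤ z := by linarith
    exact_mod_cast this
  have hzh : zh ≤ z := by
    have : (zh : ℝ) ≤ z := by linarith
    exact_mod_cast this
  have hz64 : 64 ≤ z := by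
    have : (64 : ℝ) ≤ z := by linarith
    exact_mod_cast this
  have hXL : Real.log X ≤ X := by
    have := Real.add_one_le_exp (Real.log X)
    rw [← hXe] at this; linarith
  have hXs : Xs ≤ X := by
    have : (Xs : ℝ) ≤ X := by linarith
    exact_mod_cast this
  have hX3 : 3 ≤ X := by
    have : (3 : ℝ) ≤ X := by linarith
    exact_mod_cast this
  have hX0 : (0 : ℝ) < X := by linarith
  set Λ := Real.log X with hL
  set l := Real.log Λ with hl
  set LY := Real.log Y with hLY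
  have hW1 := one_le_PW z
  have hWe : (PW z : ℝ) ≤ Real.exp (2 * z) := PW_le pb z
  have hW0 : (0 : ℝ) < PW z := by linarith
  have hzl' : (z : ℝ) ≤ z * l := by nlinarith
  have hLYz : 64 * (z : ℝ) ≤ LY := by linarith
  have hlz0' : (Ch : ℝ) ≤ Real.log z := by
    rw [Real.le_log_iff_exp_le hz0]; linarith
  have hCh1 : (1 : ℝ) ≤ Ch := by exact_mod_cast hCh
  have hlz0 : 0 < Real.log z := by linarith
  have hδh : (Ch : ℝ) / Real.log z ≤ 1 := by
    rw [div_le_one hlz0]; exact hlz0'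
  have hL1 : 1 ≤ Λ := by linarith
  have hW20 : (PW z : ℝ) ^ 20 ≤ X := by
    calc (PW z : ℝ) ^ 20 ≤ (Real.exp (2 * z)) ^ 20 := by gcongr
      _ = Real.exp (40 * z) := by rw [← Real.exp_nat_mul]; ring_nf
      _ ≤ Real.exp Λ := Real.exp_le_exp.2 (by linarith)
      _ = X := hXe.symm
  have hWX : 2 * (PW z : ℝ) ≤ X := by
    calc 2 * (PW z : ℝ) ≤ Real.exp z * Real.exp (2 * z) := by
          gcongr; linarith [Real.add_one_le_exp (z : ℝ)]
      _ = Real.exp (3 * z) := by rw [← Real.exp_add]; ring_nf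
      _ ≤ Real.exp Λ := Real.exp_le_exp.2 (by linarith)
      _ = X := hXe.symm
  have hWXn : PW z ≤ X := by
    have : (PW z : ℝ) ≤ X := by linarith
    exact_mod_cast this
  have hWY : PW z ≤ Y := by
    have : (PW z : ℝ) ≤ Y := by
      calc (PW z : ℝ) ≤ Real.exp (2 * z) := hWe
        _ ≤ Real.exp LY := Real.exp_le_exp.2 (by linarith)
        _ = Y := hYe.symm
    exact_mod_cast this
  have hKz' : (96 : ℝ) * (K + L + 1) ≤ z := by exact_mod_cast hK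
  have hK0 : (0 : ℝ) ≤ K := by positivity
  have hL00 : (0 : ℝ) ≤ L := by positivity
  have hKz : (32 : ℝ) * (K + 1) ≤ z := by linarith
  have hKn : 32 * K ≤ z := by omega
  have hcond : (PW z : ℝ) ^ 2 * Real.log ((z : ℝ) * X) ^ (Ch * (K + 1)) ≤ Y := by
    have e1 : Real.log ((z : ℝ) * X) ≤ Λ ^ 2 := by
      rw [Real.log_mul hz0.ne' hX0.ne']
      have h4 : Real.log z ≤ z := (Real.log_le_sub_one_of_pos hz0).trans (by linarith)
      nlinarith
    have e2 : 0 ≤ Real.log ((z : ℝ) * X) := by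
      rw [Real.log_mul hz0.ne' hX0.ne']
      linarith
    calc (PW z : ℝ) ^ 2 * Real.log ((z : ℝ) * X) ^ (Ch * (K + 1)) ≤ (Real.exp (2 * z)) ^ 2 * (Λ ^ 2) ^ (Ch * (K + 1)) := by gcongr
      _ = Real.exp (4 * z) * Real.exp ((2 * (Ch * (K + 1))) * l) := by
        have f1 : (Real.exp (2 * (z : ℝ))) ^ 2 = Real.exp (4 * z) := by rw [← Real.exp_nat_mul]; ring_nf
        have f2 : (Λ ^ 2) ^ (Ch * (K + 1)) = Real.exp ((2 * (Ch * (K + 1))) * l) := by
          rw [← pow_mul, hLe, ← Real.exp_nat_mul]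
          push_cast
          ring_nf
        rw [f1, f2]
      _ = Real.exp (4 * z + (2 * (Ch * (K + 1))) * l) := by rw [← Real.exp_add]
      _ ≤ Real.exp LY := by
        apply Real.exp_le_exp.2
        have f3 : (Ch : ℝ) * ((K + 1) * l) ≤ Ch * (z * l / 32) := by
          apply mul_le_mul_of_nonneg_left _ hCh0
          nlinarith
        have f4 : (Ch : ℝ) * (z * l) + 64 * (z * l) ≤ LY := by
          push_cast at hzY
          nlinarith
        nlinarith [mul_nonneg hCh0 hlpos]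
      _ = Y := hYe.symm
  have hSP : ∀ Z h, 1 / 2 ≤ SP z Z h := fun Z h => us.2.2 z Z h (by omega)
  have hSP0 : ∀ Z h, 0 < SP z Z h := fun Z h => lt_of_lt_of_le (by norm_num) (hSP Z h)
  have hXH : ∀ i, X ≤ H i := fun i => (hS.scale i).1
  have hcast : ∀ i, ∀ n ∈ Ioc Y (2 * Y), ((vq (q i) n : ℕ) : ZMod (PW z)) = ev (q i) (n : ZMod (PW z)) := fun i n hn => cast_vq _ _ (hS.nonneg i hn)
  have hHS2 := hhs z Y X K 2 H q hzh le_rfl hKn hS hYX hcond
  have hesum := esq (PW z) Y K q (fun n m => ∏ i, SP z (H i) (dst (vq (q i) n) (vq (q i) m))) E (1 / (PW z : ℝ) ^ (a₀ + 6)) (by positivity)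
    (fun n m => prod_nonneg fun i _ => (hSP0 _ _).le) (by
      intro c e
      refine le_trans (le_of_eq ?_) ((hHS2 c e).trans ?_)
      · refine sum_congr rfl fun n _ => sum_congr rfl fun m _ => ?_
        rw [← prod_pow]
      · apply mul_le_mul_of_nonneg_left _ (by positivity)
        linarith) (by
      refine hex.trans (le_of_eq ?_)
      rw [div_pow, one_pow, ← pow_mul, mul_comm (a₀ + 6) 2]
      field_simp)
  have f2 := mome (PW z) Y K H q (2 * Cs) (16 * Λ ^ 2) (2 / (PW z : ℝ) ^ (a₀ + 6)) (1 + K * (2 : ℕ))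
    (fun i n m => SP z (H i) (dst (vq (q i) n) (vq (q i) m))) E hWY (fun i => hWXn.trans (hXH i)) (fun i n hn => hS.nonneg i hn)
    (by positivity) (by positivity) (by positivity) (fun i n m => hSP0 _ _)
    (by
      intro i n hn m hm β hβ
      apply B2_zero (hWXn.trans (hXH i)) (hS.mem i hn).1 (hS.mem i hm).1
      rw [hcast i n hn, hcast i m hm]
      exact hβ)
    (by
      intro i n hn m hm hok β
      have s5r : (X : ℝ) ≤ (H i : ℝ) := by exact_mod_cast hXH i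
      exact B2_le hCs (hSP0 _ _).le (hWX.trans s5r) (hsv z (H i) (hXs.trans (hXH i)) (by omega) (hW20.trans s5r) _ (hS.mem i hn).1 _ (hS.mem i hm).1 (hok.2 i) β))
    (by
      intro i n hn m hm β
      obtain ⟨s1, s2, s3, s4⟩ := hscale _ (hXH i) (hS.scale i).2
      refine (B2_triv (hX3.trans (hXH i)) (hS.mem i hn).1 (hS.mem i hm).1 β).trans ?_
      have h5 : Real.log (H i) ^ 2 ≤ (2 * Λ) ^ 2 := by
        have : 0 ≤ Real.log (H i) := by linarith
        gcongr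
      nlinarith)
    (by
      refine hesum.trans (le_of_eq ?_)
      ring)
    (nok 2 Y K q hS.deg (fun i n hn => hS.nonneg i hn))
  have hnum := num_pairQ (a₀ := a₀) (L := L) hη hM64 (by linarith) (by positivity : (0:ℝ) ≤ 2 * Cs) ha₀ pb (hz₁ z hz1) hX hYX hz hzY' hK
  have hcard : (0 : ℝ) ≤ ((AdQ (PW z) q).card : ℝ) := Nat.cast_nonneg _
  have e : ∑ b ∈ AdQ (PW z) q, (∑ s ∈ SbQ H b, 2 ^ (L + 2) * (PRq Y q E s / MbQ Y q b ^ 2)) / ((SbQ H b).card : ℝ) =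
      2 ^ (L + 2) * ∑ b ∈ AdQ (PW z) q, (∑ s ∈ SbQ H b, (∑ x ∈ (Ioc Y (2 * Y) ×ˢ Ioc Y (2 * Y)).filter (fun x => x ∈ E ∨ ¬ okp q x.1 x.2),
        ∏ i, wt (vq (q i) x.1 + s i) * wt (vq (q i) x.2 + s i)) / MbQ Y q b ^ 2) / (SbQ H b).card := by
    rw [mul_sum]
    refine sum_congr rfl fun b _ => ?_
    rw [← mul_sum, mul_div_assoc]
    rfl
  rw [e]
  have h2 : (0 : ℝ) ≤ 2 ^ (L + 2) := by positivity
  calc _ ≤ 2 ^ (L + 2) * (((PW z : ℝ) ^ 2 * (2 * Cs) ^ K * (2 / (PW z : ℝ) ^ (a₀ + 6)) + (PW z : ℝ) ^ 2 * (16 * Λ ^ 2) ^ K * (1 + K * (2 : ℕ)) / Y) * (AdQ (PW z) q).card) := by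
        gcongr
    _ = (2 ^ (L + 2) * ((PW z : ℝ) ^ 2 * (2 * Cs) ^ K * (2 / (PW z : ℝ) ^ (a₀ + 6)) + (PW z : ℝ) ^ 2 * (16 * Λ ^ 2) ^ K * (1 + K * (2 : ℕ)) / Y)) * (AdQ (PW z) q).card := by ring
    _ ≤ η * (AdQ (PW z) q).card := mul_le_mul_of_nonneg_right hnum hcard

end Pool.Agent.Q145.HQ
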