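import Pool.Agent.Q145.LQ.Inp
import Pool.Agent.Q145.HC.LawB

/-!
# Project HQ (helper145): the Hardy-Littlewood-Chowla law along the primes `n² + a_i`, for long systems

For almost all `a ∈ (4Y², 8Y²]^K`: along the `Y < n ≤ 2Y` with `n² + a_1, ..., n² + a_K` all prime the signs `λ(f_j(n) + t_j)`, `f_j` linear or quadratic, `t_j ≤ G_j`, are independent and uniform
in mean square over `t`. The primes are project LQ (`Pool/Agent/Q145/LQ`), the Liouville function is project HC (`Pool/Agent/Q145/HC`). New here: exceptional DIFFERENCES for the Liouville function,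
different functions for the different signs, the exceptional pairs of a system of quadratic polynomials.

Every `S_...` is a `Prop` with a complete proof in its docstring. A job = a theorem `Pool.Agent.Q145.HQ.t_... : S_...` in its own file, which imports this file (and whatever library file it uses).
-/

set_option autoImplicit false

namespace Pool.Agent.Q145.HQ

open Finset Filter
open Pool.Agent.Q145.SZ Pool.Agent.Q145.LQ Pool.Agent.Q145.HC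

/-- the correlations of the Liouville function are small for all differences outside `D` -/
def LDd (A X : ℕ) (D : Finset ℕ) : Prop := ∀ n ∈ Ioc X (2 * X), ∀ m ∈ Ioc X (2 * X), 5 * X < 4 * n → 5 * X < 4 * m → n ≠ m → dst n m ∉ D →
  |∑ s ∈ Icc 1 X, lm (n + s) * lm (m + s)| ≤ X / Real.log X ^ A

/-- the same with a small set of exceptional differences -/
def LCd (A z X : ℕ) : Prop := ∃ D : Finset ℕ, D ⊆ Icc 1 X ∧ (D.card : ℝ) ≤ (X : ℝ) / (PW z : ℝ) ^ A ∧ LDd A X D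

/-- **LDU** (from exceptional pairs to exceptional differences; adapt `Pool/Agent/Q53/LQ/H2U.lean` (`t_H2U`/`main`), here everything is simpler). Proof. `L = log X`, `W = PW z`, `B = A + 1`, `A' = A + B + 1`, `Δ = ⌊X / (8 L^B)⌋ ≥ 1`. For `0 ≤ t < Δ` let `D_t` be the set of the
`h ∈ [1, X]` for which there is `k ≡ t` mod `Δ`, `X < k`, `k + h ≤ 2X`, with `(k, k + h) ∈ E`. `∑_t |D_t| ≤ |E|`, so some `t` has `|D_t| ≤ X²/(Δ W^{A'}) ≤ 16 L^B X/W^{A'} ≤ X/W^A` (`W ≥ e^{z/2} ≥ L^{32}` for large `z`: `Pool.Agent.Q111.SZ.t_PWB`). Let `n < m` (the other case by symmetry) be in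
`(5X/4, 2X]`, `h = m - n ∉ D_t`. Choose `k ≡ t` mod `Δ` with `n - Δ < k ≤ n`; `k > X`, and put `m' = k + h ≤ m ≤ 2X`, `δ = n - k ∈ [0, Δ)`. The bound `X/L^{A'}` holds for `(k, m')`. `∑_{s ≤ X} lm(n+s) lm(m+s) = ∑_{δ < s' ≤ X + δ} lm(k+s') lm(m'+s')` differs from
`∑_{s' ≤ X} lm(k+s') lm(m'+s')` by at most `2 δ ≤ X/(4 L^B)`. -/
def S_LDU : Prop := ∀ A : ℕ, ∃ (A' X₀ : ℕ), A ≤ A' ∧ ∀ z X : ℕ, X₀ ≤ X → 64 * Real.log (Real.log X) ≤ z → 64 * (z : ℝ) ≤ Real.log X → LCc A' z X → LCd A z X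

/-- **SGNQ** (second moment over the shifts, different functions for the different coordinates). Adapt `sgnw` in `Pool/Agent/Q145/HC/Sgnw.lean`: there `F j n t = f (n + t)`, `G j = X`; the proof is the same with `S j n`, `C j n m` in place of `S n`, `C n m` and `∏ j, G j` in place of `X ^ L`. -/
def S_SGNQ : Prop := ∀ (L : ℕ) (G : Fin L → ℕ) (P : Finset ℕ) (E : Finset (ℕ × ℕ)) (F : Fin L → ℕ → ℕ → ℝ) (ε : Fin L → ℝ) (δ : ℝ) (w : ℕ → ℂ), (∀ j, 1 ≤ G j) → 0 ≤ δ → 3 * L * δ ≤ 1 →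
  (∀ j n t, F j n t = 1 ∨ F j n t = -1) → (∀ j, ε j = 1 ∨ ε j = -1) → (∀ n, ‖w n‖ ≤ 1) →
  (∀ j, ∀ n ∈ P, |∑ t ∈ Icc 1 (G j), F j n t| ≤ δ * G j) →
  (∀ j, ∀ n ∈ P, ∀ m ∈ P, (n, m) ∉ E → |∑ t ∈ Icc 1 (G j), F j n t * F j m t| ≤ δ * G j) →
  ∑ t ∈ Fintype.piFinset (fun j : Fin L => Icc 1 (G j)), ‖(2 : ℂ) ^ L * (∑ n ∈ P.filter fun n => ∀ j, F j n (t j) = ε j, w n) - ∑ n ∈ P, w n‖ ^ 2 ≤
    (∏ j, (G j : ℝ)) * (10 * L * δ * (P.card : ℝ) ^ 2 + 2 ^ (L + 2) * (((P ×ˢ P).filter fun q => q ∈ E).card : ℝ))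

open Classical in
/-- **MOMEQ** (the exceptional pairs and the pairs with equal values). Parts (b), (c) of the proof of `S_MOM2Q` (`Pool/Agent/Q124/LQ/Mom2q.lean`); compare `Pool/Agent/Q151/HC/Mome.lean`. Proof. `(∑_{s ∈ SbQ} ∏_i wt(q_i(n) + s_i) wt(q_i(m) + s_i)) / |SbQ| = ∏_i B2 (H i) (vq (q i) n) (vq (q i) m) (b i)`.
It vanishes unless all `b_i ∈ Us (ev (q i) n) (ev (q i) m)`, i.e. `n, m ∈ GQ q b`; then with `v = vv W ≥ 1`, `1/MbQ² = W²/(Y² |GQ q b|² v^{2K})`. So for `okp q n m`: `∑_{b ∈ AdQ} (...)/MbQ² ≤ (W²/Y²) C₀^K ∏_i S i n m |AdQ|`, for the other pairs `≤ (W²/Y²) D₀^K |AdQ|`. Sum over the pairs. -/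
def S_MOMEQ : Prop := ∀ (W : ℕ) [NeZero W] (Y K : ℕ) (H : Fin K → ℕ) (q : Fin K → Polynomial ℤ) (C₀ D₀ e₂ N : ℝ) (S : Fin K → ℕ → ℕ → ℝ) (E : Finset (ℕ × ℕ)),
  W ≤ Y → (∀ i, W ≤ H i) → (∀ i, ∀ n ∈ Ioc Y (2 * Y), 0 ≤ (q i).eval (n : ℤ)) → 0 ≤ C₀ → 0 ≤ D₀ → 0 ≤ e₂ → (∀ i n m, 0 < S i n m) →
  (∀ i, ∀ n ∈ Ioc Y (2 * Y), ∀ m ∈ Ioc Y (2 * Y), ∀ β : ZMod W, β ∉ Us (ev (q i) (n : ZMod W)) (ev (q i) (m : ZMod W)) → B2 (H i) (vq (q i) n) (vq (q i) m) β = 0) →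
  (∀ i, ∀ n ∈ Ioc Y (2 * Y), ∀ m ∈ Ioc Y (2 * Y), okp q n m → ∀ β : ZMod W, B2 (H i) (vq (q i) n) (vq (q i) m) β ≤ C₀ * vv W ^ 2 * S i n m) →
  (∀ i, ∀ n ∈ Ioc Y (2 * Y), ∀ m ∈ Ioc Y (2 * Y), ∀ β : ZMod W, B2 (H i) (vq (q i) n) (vq (q i) m) β ≤ D₀) →
  (∑ x ∈ E.filter (fun x => x.1 ∈ Ioc Y (2 * Y) ∧ x.2 ∈ Ioc Y (2 * Y) ∧ okp q x.1 x.2), ∏ i, S i x.1 x.2 ≤ e₂ * (Y : ℝ) ^ 2) →
  (((((Ioc Y (2 * Y)) ×ˢ (Ioc Y (2 * Y))).filter fun x : ℕ × ℕ => ¬ okp q x.1 x.2).card : ℝ) ≤ N * Y) →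
  ∑ b ∈ AdQ W q, (∑ s ∈ SbQ H b, (∑ x ∈ (Ioc Y (2 * Y) ×ˢ Ioc Y (2 * Y)).filter (fun x => x ∈ E ∨ ¬ okp q x.1 x.2),
      ∏ i, wt (vq (q i) x.1 + s i) * wt (vq (q i) x.2 + s i)) / MbQ Y q b ^ 2) / (SbQ H b).card ≤
    ((W : ℝ) ^ 2 * C₀ ^ K * e₂ + (W : ℝ) ^ 2 * D₀ ^ K * N / Y) * (AdQ W q).card

/-- the arguments of the Liouville function: linear or quadratic polynomials `f_j` with values in `(5 G_j / 4, 2 G_j]` for `Y < n ≤ 2Y`, `Y^deg ≤ G_j ≤ z Y^deg` -/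
structure ArgL (z Y : ℕ) {L : ℕ} (G : Fin L → ℕ) (f : Fin L → Polynomial ℤ) : Prop where
  deg : ∀ j, (f j).natDegree = 1 ∨ (f j).natDegree = 2
  scale : ∀ j, Y ^ (f j).natDegree ≤ G j ∧ G j ≤ z * Y ^ (f j).natDegree
  val : ∀ j, ∀ n ∈ Ioc Y (2 * Y), 5 * (G j : ℤ) < 4 * (f j).eval (n : ℤ) ∧ (f j).eval (n : ℤ) ≤ 2 * G j

open Classical in
/-- the exceptional pairs for the Liouville function -/
noncomputable def exl {L : ℕ} (Y : ℕ) (f : Fin L → Polynomial ℤ) (D : Fin L → Finset ℕ) : Finset (ℕ × ℕ) :=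
  ((Ioc Y (2 * Y)) ×ˢ (Ioc Y (2 * Y))).filter fun x : ℕ × ℕ => ¬ okp f x.1 x.2 ∨ ∃ j, dst (vq (f j) x.1) (vq (f j) x.2) ∈ D j

/-- **EXL** (adapt `exq_quad` in `Pool/Agent/Q145/LQ/Exq.lean`, with `elemQ` for `X = Y`). Proof. The pairs with `¬ okp f`: at most `(1 + 2L) Y` (`S_NOK`, proved: `Pool.Agent.Q177.LQ.t_NOK`, `d = 2`). For each `j` with `deg f_j = 2`: `S_PRQ`, `S_TAU` (proved: `Pool.Agent.Q124.LQ...t_PRQ` in `Pool/Agent/Q124/LQ/Prq.lean`,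
`Pool/Agent/Q68/LQ/TAU.lean`; see `LQ/All.lean`), `tau_small`: at most `16 Ct log² · z Y²/W^{2a+20}`. For `deg f_j = 1`: `f_j` is injective, so for given `n` and difference `h` there are at most `2` values `m`: at most `2 Y |D_j| ≤ 2 z Y²/W^{4a+40}`. There are at most `z` indices `j`, and `(log Y)^32 ≤ W`, `z ≤ log Y`, `W^{2a+1} ≤ Y`-type
bound (`W ≤ e^{2z}`, `a z ≤ log Y/64 ...` because `M ≥ 64 (a + 1)` and `64 z M ≤ 64 z loglog Y ≤ log Y`). -/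
def S_EXL : Prop := ∀ a : ℕ, ∃ M : ℝ, 64 ≤ M ∧ ∀ (z Y L : ℕ) (G : Fin L → ℕ) (f : Fin L → Polynomial ℤ) (D : Fin L → Finset ℕ), M ≤ Real.log (Real.log Y) → 64 * Real.log (Real.log Y) ≤ z →
  64 * z * Real.log (Real.log Y) ≤ Real.log Y → L ≤ z → ArgL z Y G f → (∀ j, D j ⊆ Icc 1 (G j) ∧ ((D j).card : ℝ) ≤ (G j : ℝ) / (PW z : ℝ) ^ (4 * a + 40)) →
  ((exl Y f D).card : ℝ) ≤ (Y : ℝ) ^ 2 / (PW z : ℝ) ^ (2 * a)

end Pool.Agent.Q145.HQ
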