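import Pool.Agent.Q145.HQ.Inp

/-!
# Project HQ: a zero-free region gives the law for quadratic systems
-/

set_option autoImplicit false

namespace Pool.Agent.Q145.HQ

open Finset Filter
open Pool.Agent.Q145.SZ Pool.Agent.Q145.LQ Pool.Agent.Q145.HC
open Pool.Agent.Q145.LS (SUFP SUFc)

open Classical in
theorem sufL (hcount : SUFP PQC) (ms : S_MSL') (lc : ∀ A : ℕ, ∃ (b A' C₁ X₀ : ℕ), ∀ z X : ℕ, X₀ ≤ X →
    C₁ * Real.log (Real.log X) ≤ z → C₁ * (z : ℝ) ≤ Real.log X → ML A' X (2 * PW z ^ b) → LCc A z X) (pb : S_PWB) (ldu : S_LDU)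
    (tail : S_TAILQ') (far : S_FARQ') (hexl : S_EXL) (pnl : S_PNL) (sgn : S_SGNQ) (mbs : S_MBQ) (tr : S_TRANSQ)
    {a κ : ℕ} (hκ : 64 ≤ κ) (hpb : PBQ a κ) : SUFP PQL := by
  obtain ⟨B, C₀, hB, hC₀, hc⟩ := hcount
  obtain ⟨B', C₀', hB', hC₀', hl'⟩ := lcz ms lc pb ldu (4 * a + 40)
  obtain ⟨Mx, hMx, hex⟩ := hexl a
  obtain ⟨X₁, hpnl⟩ := pnl (4 * a + 40)
  have hκr : (64 : ℝ) ≤ κ := by exact_mod_cast hκ
  refine ⟨B + B', 2 * (C₀ + C₀') + 2 * κ, by omega, by linarith, fun ε₁ hε₁ => ?_⟩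
  set ε : ℝ := min ε₁ 1 with hεdef
  have hε : 0 < ε := by positivity
  have hε1 : ε ≤ 1 := min_le_right _ _
  have hεε : ε ≤ ε₁ := min_le_left _ _
  set e : ℝ := ε / 32 with he
  have he0 : 0 < e := by positivity
  obtain ⟨M₁, hM₁, hcc⟩ := hc (ε / 2) (by positivity)
  obtain ⟨M₂, hM₂, hnear⟩ := near_quad tail far e (ε / 8) he0 (by positivity)
  obtain ⟨M₃, hM₃, hpair⟩ := hpb (e ^ 2 * (ε / 8)) (by positivity)
  have q5 : 0 < 1 / e ^ 2 := by positivity
  have q6 : (0 : ℝ) ≤ X₁ := by positivity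
  refine ⟨M₁ + M₂ + M₃ + Mx + X₁ + 1 / e ^ 2 + 2 * (C₀ + C₀') + 2 * κ, by linarith, ?_⟩
  intro z Y ω T hl hz hzL hω hω4 hωL hT hTz hTL hZF Q hQ K L H q G f hKQ hSys hdeg hArg
  refine HLL.mono hε hεε ?_
  have hlY0 : 0 < Real.log (Real.log Y) := by linarith
  obtain ⟨e1, e2, e3⟩ := loglog_sq (Y := Y) (by linarith)
  set l := Real.log (Real.log Y) with hldef
  set lX := Real.log (Real.log ((Y ^ 2 : ℕ) : ℝ)) with hlX
  have hz0 : (0 : ℝ) ≤ z := by positivity
  have hzl0 : 0 ≤ (z : ℝ) * l := by positivity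
  have hlog0 : 0 ≤ Real.log Y := Real.log_natCast_nonneg Y
  have hC₀l : 0 ≤ C₀ * l := by positivity
  have hC₀l' : 0 ≤ C₀' * l := by positivity
  have hκl : 0 ≤ (κ : ℝ) * l := by positivity
  have hS : Sys 2 z Y (Y ^ 2) H q := hSys.mono (by omega)
  have hA : ArgL z Y G f := hArg.mono (by omega)
  have hC₀zl : 0 ≤ C₀ * (z * l) := by positivity
  have hC₀zl' : 0 ≤ C₀' * (z * l) := by positivity
  have hκzl : 0 ≤ (κ : ℝ) * (z * l) := by positivity
  have hlX0 : 0 ≤ lX := by linarith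
  have b1 : 64 * l ≤ z := by
    have : (64 : ℝ) * l ≤ C₀ * l := by gcongr
    linarith
  have b2 : 64 * z * l ≤ Real.log Y := by
    have : (64 : ℝ) * (z * l) ≤ C₀ * (z * l) := by gcongr
    linarith
  obtain ⟨g1, g2, g3, g4, g5, g6, g7, g8, g9⟩ := elem (z := z) (X := Y) (C := 64) (M := 1 + X₁ + 1 / e ^ 2) le_rfl (by linarith) (by linarith) b1 (by linarith)
  have hY0 : (0 : ℝ) < Y := by rw [g6]; exact Real.exp_pos _
  have hLYY : Real.log Y ≤ Y := by
    have := Real.log_le_sub_one_of_pos hY0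
    linarith
  have hY3 : 3 ≤ Y := by
    have : (3 : ℝ) ≤ Y := by linarith
    exact_mod_cast this
  have hX₁Y : X₁ ≤ Y := by
    have : (X₁ : ℝ) ≤ Y := by linarith
    exact_mod_cast this
  have hYX : Y ≤ Y ^ 2 := by nlinarith
  -- scale Y
  have d1 : (C₀' : ℝ) * l ≤ z := by linarith
  have d2 : C₀' * z * l ≤ Real.log Y := by linarith
  have d3 : C₀' * l ≤ ω * Real.log Y := by linarith
  have d4 : 7 * √(Real.log Y) ≤ Real.log T := by
    have : 0 ≤ √(Real.log Y) := Real.sqrt_nonneg _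
    linarith
  have hBz : 120 * (B : ℝ) * z ≤ 120 * ((B + B' : ℕ) : ℝ) * z := by gcongr; exact_mod_cast Nat.le_add_right _ _
  have hBz' : 120 * (B' : ℝ) * z ≤ 120 * ((B + B' : ℕ) : ℝ) * z := by gcongr; exact_mod_cast Nat.le_add_left _ _
  have hZF1 : ZF (PW z ^ B) ω T := zf_mono (Nat.pow_le_pow_right (PW_pos z) (Nat.le_add_right _ _)) hZF
  have hZF2 : ZF (PW z ^ B') ω T := zf_mono (Nat.pow_le_pow_right (PW_pos z) (Nat.le_add_left _ _)) hZF
  -- scale Y²
  have c1 : C₀' * lX ≤ z := by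
    have : C₀' * lX ≤ C₀' * (2 * l) := by gcongr
    linarith
  have c2 : C₀' * z * lX ≤ Real.log ((Y ^ 2 : ℕ) : ℝ) := by
    have : C₀' * z * lX ≤ C₀' * z * (2 * l) := by gcongr
    rw [e1]
    linarith
  have c3 : C₀' * lX ≤ ω * Real.log ((Y ^ 2 : ℕ) : ℝ) := by
    have : C₀' * lX ≤ C₀' * (2 * l) := by gcongr
    have h2 : 0 ≤ ω * Real.log Y := by positivity
    rw [e1]
    linarith
  have c4 : 7 * √(Real.log ((Y ^ 2 : ℕ) : ℝ)) ≤ Real.log T := by
    refine le_trans ?_ hTL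
    rw [e1]
    have h1 : √(2 * Real.log Y) ≤ 10 / 7 * √(Real.log Y) := by
      apply Real.sqrt_le_iff.2
      refine ⟨by positivity, ?_⟩
      rw [mul_pow, Real.sq_sqrt hlog0]
      linarith
    linarith
  have c5 : 64 * lX ≤ z := by
    have : (64 : ℝ) * lX ≤ C₀' * lX := by gcongr
    linarith
  have c6 : (κ : ℝ) * z * lX ≤ Real.log Y := by
    have : (κ : ℝ) * z * lX ≤ κ * z * (2 * l) := by gcongr
    linarith
  have c7 : 64 * z * lX ≤ Real.log Y := by
    have h1 : (64 : ℝ) * z * lX ≤ κ * z * lX := by gcongr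
    linarith
  -- the correlations
  have hLD : ∀ j, LCd (4 * a + 40) z (G j) := by
    intro j
    have hs := hA.scale j
    rcases hA.deg j with h | h
    · rw [h, pow_one] at hs
      exact hl' z Y ω T (by linarith) d1 d2 hω hω4 d3 hT (by linarith) d4 hZF2 (G j) hs.1 hs.2
    · rw [h] at hs
      exact hl' z (Y ^ 2) ω T (by linarith) c1 c2 hω hω4 c3 hT (by linarith) c4 hZF2 (G j) hs.1 hs.2
  choose D hD hDc hDl using hLD
  have hYG : ∀ j, Y ≤ G j := by
    intro j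
    have hs := (hA.scale j).1
    rcases hA.deg j with h | h
    · rw [h, pow_one] at hs; exact hs
    · rw [h] at hs; exact hYX.trans hs
  have hLz : L ≤ z := by omega
  have hE := hex z Y L G f D (by linarith) b1 b2 hLz hA (fun j => ⟨hD j, hDc j⟩)
  have hKLz : 96 * (K + L + 1) ≤ z := by omega
  have hcnt := hcc z Y ω T (by linarith) (by linarith) (by linarith) hω hω4 (by linarith) hT (by linarith) hTL hZF1 Q hQ K H q (by omega) hSys hdeg
  have hnr := hnear z Y K H q (by linarith) c5 c7 (by omega) hS hdeg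
  have hpr := hpair z Y (Y ^ 2) K L H q (exl Y f D) (by linarith) c5 c6 hYX hKLz hS hE
  -- the small parameter
  have hLX1 : 1 ≤ Real.log Y := by linarith
  set δ : ℝ := 1 / Real.log Y ^ 2 with hδdef
  have hδ0 : 0 ≤ δ := by positivity
  have hKLr : (96 : ℝ) * (K + L + 1) ≤ z := by exact_mod_cast hKLz
  have hKnn : (0 : ℝ) ≤ K := by positivity
  have hLnn : (0 : ℝ) ≤ L := by positivity
  have he2L : 1 / Real.log Y ≤ e ^ 2 := by
    have h1 : 1 / e ^ 2 ≤ Real.log Y := by linarith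
    rw [div_le_iff₀ g1]
    rw [div_le_iff₀ (by positivity)] at h1
    linarith
  have hLδ : 10 * L * δ ≤ e ^ 2 := by
    have h10 : 10 * (L : ℝ) ≤ Real.log Y := by linarith
    calc 10 * L * δ ≤ Real.log Y * (1 / Real.log Y ^ 2) := by gcongr
      _ = 1 / Real.log Y := by field_simp
      _ ≤ e ^ 2 := he2L
  have hdiv : ∀ j, ∀ x : ℝ, x ≤ (G j : ℝ) / Real.log (G j) ^ (4 * a + 40) → x ≤ δ * G j := by
    intro j x hx
    refine hx.trans ?_
    rw [hδdef, one_div_mul_eq_div]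
    have hGY : (Y : ℝ) ≤ G j := by exact_mod_cast hYG j
    have h1 : Real.log Y ≤ Real.log (G j) := Real.log_le_log hY0 hGY
    apply div_le_div_of_nonneg_left (by linarith) (by positivity)
    calc Real.log Y ^ 2 ≤ Real.log (G j) ^ 2 := by gcongr
      _ ≤ Real.log (G j) ^ (4 * a + 40) := pow_le_pow_right₀ (by linarith) (by omega)
  have hW2 : (PW z : ℝ) ≤ Real.exp (2 * z) := PW_le pb z
  have hY2e : ((Y : ℝ)) ^ 2 = Real.exp (2 * Real.log Y) := by
    rw [show (2 : ℝ) = ((2 : ℕ) : ℝ) by norm_num, Real.exp_nat_mul, ← g6]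
  have h8 : 8 * (K + 1) * PW z ≤ Y ^ 2 := by
    have : (8 * ((K : ℝ) + 1)) * PW z ≤ (Y : ℝ) ^ 2 := by
      calc (8 * ((K : ℝ) + 1)) * PW z ≤ Real.exp z * Real.exp (2 * z) := by
            gcongr
            linarith [Real.add_one_le_exp (z : ℝ)]
        _ = Real.exp (3 * z) := by rw [← Real.exp_add]; ring_nf
        _ ≤ Real.exp (2 * Real.log Y) := Real.exp_le_exp.2 (by linarith)
        _ = (Y : ℝ) ^ 2 := hY2e.symm
    exact_mod_cast this
  refine law_of sgn mbs tr hS (by omega) (by omega) h8 (exl Y f D) (δ := δ) (e := e) (fun j => by have := hYG j; omega) he0 (by rw [he]; linarith) (by rw [he]; linarith)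
    hε1 hδ0 hLδ ?_ ?_ hcnt hnr hpr
  · intro j n hn
    exact hdiv j _ (hpnl (G j) (hX₁Y.trans (hYG j)) (vq (f j) n) (hA.mem j hn).1)
  · intro j n hn m hm hnm
    have hok : okp f n m ∧ dst (vq (f j) n) (vq (f j) m) ∉ D j := by
      unfold exl at hnm
      rw [mem_filter, not_and, mem_product] at hnm
      have h3 := hnm ⟨hn, hm⟩
      push Not at h3
      exact ⟨h3.1, h3.2 j⟩
    exact hdiv j _ (hDl j _ (hA.mem j hn).1 _ (hA.mem j hm).1 (hA.mem j hn).2 (hA.mem j hm).2 (hok.1.2 j) hok.2)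

end Pool.Agent.Q145.HQ
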